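import Mathlib

set_option autoImplicit false

namespace Pool.Agent.Results.MP_aae461_co.HellyNumber

open Finset Module

open scoped NNReal

/-! ## Positive spanning sets -/

section Cone

variable {E : Type*} [AddCommGroup E] [Module ℝ E]

/-- The cone generated by `W` is a linear subspace. -/
def Neg (W : Finset E) : Prop := ∀ w ∈ W, -w ∈ Submodule.span ℝ≥0 (W : Set E)

lemma Neg.mem {W : Finset E} (h : Neg W) {v : E} (hv : v ∈ Submodule.span ℝ (W : Set E)) :
    v ∈ Submodule.span ℝ≥0 (W : Set E) ∧ -v ∈ Submodule.span ℝ≥0 (W : Set E) := by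
  induction hv using Submodule.span_induction with
  | mem x hx => exact ⟨Submodule.subset_span hx, h x hx⟩
  | zero => simp
  | add x y _ _ hx hy =>
    refine ⟨add_mem hx.1 hy.1, ?_⟩
    rw [neg_add]
    exact add_mem hx.2 hy.2
  | smul a x _ hx =>
    rcases le_total 0 a with ha | ha
    · have e1 : a • x = (⟨a, ha⟩ : ℝ≥0) • x := rfl
      have e2 : -(a • x) = (⟨a, ha⟩ : ℝ≥0) • (-x) := by
        rw [smul_neg]; rfl
      rw [e2, e1]
      exact ⟨Submodule.smul_mem _ _ hx.1, Submodule.smul_mem _ _ hx.2⟩
    · have ha' : 0 ≤ -a := by linarith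
      have e1 : a • x = (⟨-a, ha'⟩ : ℝ≥0) • (-x) := by
        have : (⟨-a, ha'⟩ : ℝ≥0) • (-x) = (-a) • (-x) := rfl
        rw [this, neg_smul_neg]
      have e2 : -(a • x) = (⟨-a, ha'⟩ : ℝ≥0) • x := by
        have : (⟨-a, ha'⟩ : ℝ≥0) • x = (-a) • x := rfl
        rw [this, neg_smul]
      rw [e2, e1]
      exact ⟨Submodule.smul_mem _ _ hx.2, Submodule.smul_mem _ _ hx.1⟩

lemma cone_mono {V W : Finset E} (h : V ⊆ W) :
    Submodule.span ℝ≥0 (V : Set E) ≤ Submodule.span ℝ≥0 (W : Set E) :=
  Submodule.span_mono (by exact_mod_cast h)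

/-- A positive relation among `f i` modulo a set with `Neg`. -/
lemma neg_of_relation {ι : Type*} [Fintype ι] [DecidableEq E] (B : Finset E) (hB : Neg B)
    (f : ι → E) (w : ι → ℝ) (hw : ∀ i, 0 < w i)
    (hl : ∑ i, w i • f i ∈ Submodule.span ℝ (B : Set E)) :
    Neg (B ∪ univ.image f) := by
  classical
  have hBle : Submodule.span ℝ≥0 (B : Set E) ≤ Submodule.span ℝ≥0 ((B ∪ univ.image f : Finset E) : Set E) :=
    cone_mono subset_union_left
  have hfmem : ∀ i, f i ∈ Submodule.span ℝ≥0 ((B ∪ univ.image f : Finset E) : Set E) := by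
    intro i
    apply Submodule.subset_span
    simp
  intro v hv
  rw [mem_union, mem_image] at hv
  rcases hv with hv | ⟨i, -, rfl⟩
  · exact hBle (hB v hv)
  · have h1 : -(∑ i, w i • f i) ∈ Submodule.span ℝ≥0 ((B ∪ univ.image f : Finset E) : Set E) :=
      hBle (hB.mem hl).2
    have h2 : ∑ j ∈ univ.erase i, w j • f j ∈
        Submodule.span ℝ≥0 ((B ∪ univ.image f : Finset E) : Set E) := by
      apply Submodule.sum_mem
      intro j _
      have : w j • f j = (⟨w j, (hw j).le⟩ : ℝ≥0) • f j := rfl
      rw [this]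
      exact Submodule.smul_mem _ _ (hfmem j)
    have h3 : w i • f i + ∑ j ∈ univ.erase i, w j • f j = ∑ j, w j • f j :=
      add_sum_erase univ (fun j => w j • f j) (mem_univ i)
    have h4 : -(w i • f i) = ∑ j ∈ univ.erase i, w j • f j + -(∑ j, w j • f j) := by
      rw [← h3]; abel
    have h5 : -(w i • f i) ∈ Submodule.span ℝ≥0 ((B ∪ univ.image f : Finset E) : Set E) := by
      rw [h4]; exact add_mem h2 h1
    have h6 : -(f i) = (⟨(w i)⁻¹, (inv_pos.mpr (hw i)).le⟩ : ℝ≥0) • (-(w i • f i)) := by
      have : (⟨(w i)⁻¹, (inv_pos.mpr (hw i)).le⟩ : ℝ≥0) • (-(w i • f i)) =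
        (w i)⁻¹ • (-(w i • f i)) := rfl
      rw [this, smul_neg, smul_smul, inv_mul_cancel₀ (hw i).ne', one_smul]
    rw [h6]
    exact Submodule.smul_mem _ _ h5

lemma vectorSpan_le_span {ι : Type*} (z : ι → E) :
    vectorSpan ℝ (Set.range z) ≤ Submodule.span ℝ (Set.range z) := by
  rw [vectorSpan_def, Submodule.span_le]
  rintro _ ⟨a, ha, b, hb, rfl⟩
  exact sub_mem (Submodule.subset_span ha) (Submodule.subset_span hb)

/-- The main lemma: a positive spanning set of a subspace extends, with at most two new vectors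
per missing dimension. -/
theorem extend [FiniteDimensional ℝ E] (A : Finset E) (hA : Neg A) :
    ∀ (m : ℕ) (B : Finset E), B ⊆ A → Neg B →
      finrank ℝ (Submodule.span ℝ (A : Set E)) ≤ finrank ℝ (Submodule.span ℝ (B : Set E)) + m →
      ∃ T : Finset E, B ⊆ T ∧ T ⊆ A ∧ Neg T ∧
        Submodule.span ℝ (T : Set E) = Submodule.span ℝ (A : Set E) ∧
        T.card + 2 * finrank ℝ (Submodule.span ℝ (B : Set E)) ≤
          B.card + 2 * finrank ℝ (Submodule.span ℝ (A : Set E)) := by
  classical
  intro m
  induction m with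
  | zero =>
    intro B hBA hB hm
    have hle : Submodule.span ℝ (B : Set E) ≤ Submodule.span ℝ (A : Set E) :=
      Submodule.span_mono (by exact_mod_cast hBA)
    have heq := Submodule.eq_of_le_of_finrank_le hle (by simpa using hm)
    exact ⟨B, Subset.rfl, hBA, hB, heq, by rw [heq]⟩
  | succ m ih =>
    intro B hBA hB hm
    have hle : Submodule.span ℝ (B : Set E) ≤ Submodule.span ℝ (A : Set E) :=
      Submodule.span_mono (by exact_mod_cast hBA)
    by_cases hcase : ∀ s ∈ A, s ∈ Submodule.span ℝ (B : Set E)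
    · have heq : Submodule.span ℝ (B : Set E) = Submodule.span ℝ (A : Set E) :=
        le_antisymm hle (Submodule.span_le.mpr hcase)
      exact ⟨B, Subset.rfl, hBA, hB, heq, by rw [heq]⟩
    push Not at hcase
    obtain ⟨s, hsA, hsB⟩ := hcase
    set L : Submodule ℝ E := Submodule.span ℝ (B : Set E) with hL
    -- a nonnegative relation with positive coefficient at `s`
    obtain ⟨c, hc⟩ : ∃ c : E → ℝ≥0, ∑ a ∈ A, c a • a = -s := by
      have h := hA s hsA
      have himg : (A : Set E) = id '' (A : Set E) := by simp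
      rw [himg, Submodule.mem_span_image_finset_iff_exists_fun'] at h
      simpa using h
    set A' : Finset E := A.filter (fun a => a ∉ L) with hA'
    let e : E → ℝ := fun a => (c a : ℝ) + if a = s then 1 else 0
    have he0 : ∀ a, 0 ≤ e a := by
      intro a
      have : (0 : ℝ) ≤ c a := (c a).2
      simp only [e]
      split_ifs <;> linarith
    have hsA' : s ∈ A' := mem_filter.mpr ⟨hsA, hsB⟩
    have hes : 1 ≤ e s := by
      have : (0 : ℝ) ≤ c s := (c s).2
      simp only [e, if_true]
      linarith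
    have hsum : ∑ a ∈ A, e a • a = 0 := by
      have h1 : ∀ a, e a • a = c a • a + (if a = s then a else 0) := by
        intro a
        simp only [e, add_smul]
        congr 1
        split_ifs <;> simp
      simp_rw [h1]
      rw [sum_add_distrib, hc, sum_ite_eq' A s (fun a => a), if_pos hsA]
      simp
    have hsum' : ∑ a ∈ A', e a • (L.mkQ a) = 0 := by
      have h1 : L.mkQ (∑ a ∈ A, e a • a) = 0 := by rw [hsum, map_zero]
      rw [map_sum] at h1
      rw [← h1]
      symm
      rw [hA', sum_filter]
      apply sum_congr rfl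
      intro a _
      by_cases haL : a ∈ L
      · rw [if_neg (by simpa using haL), map_smul]
        have : L.mkQ a = 0 := by simpa using haL
        rw [this, smul_zero]
      · rw [if_pos haL, map_smul]
    have hpos : 0 < ∑ a ∈ A', e a := by
      have : e s ≤ ∑ a ∈ A', e a := single_le_sum (fun a _ => he0 a) hsA'
      linarith
    have h0 : (0 : E ⧸ L) ∈ convexHull ℝ (L.mkQ '' (A' : Set E)) := by
      have := A'.centerMass_mem_convexHull (w := e) (z := fun a => L.mkQ a)
        (s := L.mkQ '' (A' : Set E)) (fun a _ => he0 a) hpos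
        (fun a ha => Set.mem_image_of_mem _ ha)
      rwa [centerMass, hsum', smul_zero] at this
    obtain ⟨ι, _, z, w, hz, hind, hw, hw1, hwz⟩ := eq_pos_convex_span_of_mem_convexHull h0
    have hzf : ∀ i, ∃ a, a ∈ A' ∧ L.mkQ a = z i := by
      intro i
      obtain ⟨a, ha, hae⟩ := hz (Set.mem_range_self i)
      exact ⟨a, ha, hae⟩
    choose f hfA hfz using hzf
    have hne : Nonempty ι := by
      by_contra hcon
      rw [not_nonempty_iff] at hcon
      simp at hw1
    have hcard2 : 2 ≤ Fintype.card ι := by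
      by_contra hcon
      have h1 : Fintype.card ι = 1 := by
        have := Fintype.card_pos (α := ι)
        omega
      obtain ⟨i0, hi0⟩ := Fintype.card_eq_one_iff.mp h1
      have huniv : (univ : Finset ι) = {i0} := by
        ext j; simp [hi0 j]
      rw [huniv, sum_singleton] at hwz hw1
      rw [hw1, one_smul, ← hfz i0] at hwz
      have : f i0 ∈ L := by simpa using hwz
      exact (mem_filter.mp (hfA i0)).2 this
    set B1 : Finset E := B ∪ univ.image f with hB1
    have hB1A : B1 ⊆ A := by
      intro v hv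
      rw [hB1, mem_union, mem_image] at hv
      rcases hv with hv | ⟨i, -, rfl⟩
      · exact hBA hv
      · exact (mem_filter.mp (hfA i)).1
    have hrel : ∑ i, w i • f i ∈ Submodule.span ℝ (B : Set E) := by
      rw [← hL]
      have h1 : L.mkQ (∑ i, w i • f i) = 0 := by
        rw [map_sum, ← hwz]
        apply sum_congr rfl
        intro i _
        rw [map_smul, hfz]
      exact (Submodule.Quotient.mk_eq_zero L).mp h1
    have hNB1 : Neg B1 := neg_of_relation B hB f w hw hrel
    set L1 : Submodule ℝ E := Submodule.span ℝ (B1 : Set E) with hL1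
    have hLL1 : L ≤ L1 := by
      rw [hL, hL1]
      apply Submodule.span_mono
      rw [hB1]
      intro v hv
      simp only [coe_union, Set.mem_union]
      exact Or.inl hv
    have hfin : finrank ℝ L + (Fintype.card ι - 1) ≤ finrank ℝ L1 := by
      let g : L1 →ₗ[ℝ] E ⧸ L := L.mkQ.comp L1.subtype
      have hg := LinearMap.finrank_range_add_finrank_ker g
      have hker : LinearMap.ker g = Submodule.comap L1.subtype L := by
        simp only [g, LinearMap.ker_comp, Submodule.ker_mkQ]
      have hker2 : finrank ℝ (LinearMap.ker g) = finrank ℝ L := by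
        rw [hker]
        exact (Submodule.comapSubtypeEquivOfLe hLL1).finrank_eq
      have hrange : Submodule.span ℝ (Set.range z) ≤ LinearMap.range g := by
        rw [Submodule.span_le]
        rintro _ ⟨i, rfl⟩
        have hfi : f i ∈ L1 := by
          apply Submodule.subset_span
          rw [hB1]
          simp
        exact ⟨⟨f i, hfi⟩, hfz i⟩
      have hvs : finrank ℝ (vectorSpan ℝ (Set.range z)) = Fintype.card ι - 1 :=
        hind.finrank_vectorSpan (by omega)
      have h1 := Submodule.finrank_mono ((vectorSpan_le_span z).trans hrange)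
      omega
    have hcardB1 : B1.card ≤ B.card + Fintype.card ι := by
      rw [hB1]
      refine (card_union_le _ _).trans ?_
      have : (univ.image f).card ≤ Fintype.card ι := card_image_le
      omega
    have hfin' : finrank ℝ L + (Fintype.card ι - 1) ≤
        finrank ℝ (Submodule.span ℝ (B1 : Set E)) := hfin
    obtain ⟨T, hT1, hT2, hT3, hT4, hT5⟩ := ih B1 hB1A hNB1 (by omega)
    refine ⟨T, (by rw [hB1] at hT1; exact subset_union_left.trans hT1), hT2, hT3, hT4, ?_⟩
    omega

end Cone

/-! ## Relative interiors of polytopes -/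

section Convex

variable {E : Type*} [NormedAddCommGroup E] [NormedSpace ℝ E]

lemma exists_pos_of_mem {C : Set E} {x : E} (hx : x ∈ intrinsicInterior ℝ C) {v : E}
    (hv : v ∈ (affineSpan ℝ C).direction) : ∃ t : ℝ, 0 < t ∧ x + t • v ∈ C := by
  obtain ⟨y, hy, rfl⟩ := mem_intrinsicInterior.mp hx
  let g : ℝ → affineSpan ℝ C := fun t => ⟨t • v +ᵥ (y : E),
    AffineSubspace.vadd_mem_of_mem_direction (Submodule.smul_mem _ t hv) y.2⟩
  have hg : Continuous g := by
    apply Continuous.subtype_mk
    simp only [vadd_eq_add]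
    fun_prop
  have h0 : g 0 = y := by
    apply Subtype.ext
    simp [g]
  have hopen : IsOpen (g ⁻¹' interior ((↑) ⁻¹' C : Set (affineSpan ℝ C))) :=
    isOpen_interior.preimage hg
  have hmem : (0 : ℝ) ∈ g ⁻¹' interior ((↑) ⁻¹' C : Set (affineSpan ℝ C)) := by
    rw [Set.mem_preimage, h0]; exact hy
  obtain ⟨ε, hε, hball⟩ := Metric.isOpen_iff.mp hopen 0 hmem
  refine ⟨ε / 2, by linarith, ?_⟩
  have h1 : (ε / 2) ∈ Metric.ball (0 : ℝ) ε := by
    rw [Metric.mem_ball, Real.dist_eq, sub_zero, abs_of_pos (by linarith)]; linarith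
  have h2 := interior_subset (hball h1)
  have h3 : ((g (ε / 2) : affineSpan ℝ C) : E) ∈ C := h2
  have h4 : ((g (ε / 2) : affineSpan ℝ C) : E) = (y : E) + (ε / 2) • v := by
    simp only [g, vadd_eq_add]
    abel
  rwa [h4] at h3

lemma aux1 (w y : E) {t : ℝ} (ht : 0 < t) :
    y = (1 / (1 + t)) • w + (t / (1 + t)) • (((1 + t) / t) • (y - w) + w) := by
  have h1 : 0 < 1 + t := by linarith
  have e1 : t / (1 + t) * ((1 + t) / t) = 1 := by field_simp
  have e3 : 1 / (1 + t) = 1 - t / (1 + t) := by field_simp; ring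
  rw [smul_add, smul_smul, e1, e3]
  module

lemma aux2 (x z : E) {t : ℝ} (ht : 0 < t) :
    ((1 + t) / t) • (x - (x + t • (x - z))) + (x + t • (x - z)) = z := by
  have e : x - (x + t • (x - z)) = -(t • (x - z)) := by module
  rw [e, smul_neg, smul_smul, div_mul_cancel₀ _ ht.ne']
  module

lemma mem_of_forall_exists_pos [FiniteDimensional ℝ E] {C : Set E} (hC : Convex ℝ C) {x : E}
    (hxC : x ∈ C)
    (h : ∀ v ∈ (affineSpan ℝ C).direction, ∃ t : ℝ, 0 < t ∧ x + t • v ∈ C) :
    x ∈ intrinsicInterior ℝ C := by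
  obtain ⟨z, hz⟩ := Set.Nonempty.intrinsicInterior hC ⟨x, hxC⟩
  obtain ⟨z', hz', rfl⟩ := mem_intrinsicInterior.mp hz
  have hxP : x ∈ affineSpan ℝ C := subset_affineSpan ℝ C hxC
  have hdir : x - (z' : E) ∈ (affineSpan ℝ C).direction :=
    AffineSubspace.vsub_mem_direction hxP z'.2
  obtain ⟨t, ht, hw⟩ := h _ hdir
  set w : E := x + t • (x - (z' : E)) with hwdef
  have hwP : w ∈ affineSpan ℝ C := subset_affineSpan ℝ C hw
  -- `x = (1/(1+t)) w + (t/(1+t)) z`
  have h1t : 0 < 1 + t := by linarith
  let r : ℝ := (1 + t) / t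
  let k : affineSpan ℝ C → affineSpan ℝ C := fun y =>
    ⟨AffineMap.lineMap w (y : E) r, AffineMap.lineMap_mem r hwP y.2⟩
  have hk : Continuous k := by
    apply Continuous.subtype_mk
    simp only [AffineMap.lineMap_apply, vsub_eq_sub, vadd_eq_add]
    fun_prop
  have hkx : k ⟨x, hxP⟩ = z' := by
    apply Subtype.ext
    simp only [k, AffineMap.lineMap_apply, vsub_eq_sub, vadd_eq_add]
    exact aux2 x (z' : E) ht
  rw [mem_intrinsicInterior]
  refine ⟨⟨x, hxP⟩, ?_, rfl⟩
  rw [mem_interior]
  refine ⟨k ⁻¹' interior ((↑) ⁻¹' C : Set (affineSpan ℝ C)), ?_, isOpen_interior.preimage hk, ?_⟩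
  · intro y hy
    have hy1 : ((k y : affineSpan ℝ C) : E) ∈ C := by
      have := interior_subset (s := ((↑) ⁻¹' C : Set (affineSpan ℝ C))) hy
      exact this
    have hy2 : (y : E) = (1 / (1 + t)) • w + (t / (1 + t)) • ((k y : affineSpan ℝ C) : E) := by
      simp only [k, AffineMap.lineMap_apply, vsub_eq_sub, vadd_eq_add]
      exact aux1 w (y : E) ht
    show (y : E) ∈ C
    rw [hy2]
    exact hC hw hy1 (by positivity) (by positivity) (by field_simp)
  · rw [Set.mem_preimage, hkx]; exact hz'

open Classical in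
/-- The vectors `a - x`, `a ∈ S`. -/
noncomputable def shift (S : Finset E) (x : E) : Finset E := S.image (fun a => a - x)

lemma coe_shift (S : Finset E) (x : E) : (shift S x : Set E) = (fun a => a - x) '' (S : Set E) := by
  classical
  unfold shift
  rw [coe_image]

lemma card_shift (S : Finset E) (x : E) : (shift S x).card = S.card := by
  classical
  unfold shift
  exact card_image_of_injective _ sub_left_injective

lemma vectorSpan_le_shift (S : Finset E) (x : E) :
    vectorSpan ℝ (S : Set E) ≤ Submodule.span ℝ (shift S x : Set E) := by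
  rw [vectorSpan_def, Submodule.span_le, coe_shift]
  rintro _ ⟨a, ha, b, hb, rfl⟩
  have e : a - b = (a - x) - (b - x) := by abel
  show a - b ∈ Submodule.span ℝ ((fun a => a - x) '' (S : Set E))
  rw [e]
  exact sub_mem (Submodule.subset_span ⟨a, ha, rfl⟩) (Submodule.subset_span ⟨b, hb, rfl⟩)

lemma neg_shift_of_relint {S : Finset E} {x : E}
    (h : x ∈ intrinsicInterior ℝ (convexHull ℝ (S : Set E))) : Neg (shift S x) := by
  classical
  have hxC : x ∈ convexHull ℝ (S : Set E) := intrinsicInterior_subset h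
  intro v hv
  unfold shift at hv
  rw [mem_image] at hv
  obtain ⟨s, hs, rfl⟩ := hv
  have hsC : s ∈ convexHull ℝ (S : Set E) := subset_convexHull ℝ _ hs
  have hdir : x - s ∈ (affineSpan ℝ (convexHull ℝ (S : Set E))).direction :=
    AffineSubspace.vsub_mem_direction (subset_affineSpan ℝ _ hxC) (subset_affineSpan ℝ _ hsC)
  obtain ⟨t, ht, hmem⟩ := exists_pos_of_mem h hdir
  rw [Finset.mem_convexHull'] at hmem
  obtain ⟨w, hw0, hw1, hw⟩ := hmem
  rw [neg_sub, coe_shift, Submodule.mem_span_image_finset_iff_exists_fun']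
  refine ⟨fun a => Real.toNNReal (w a / t), ?_⟩
  have h1 : ∀ a ∈ S, Real.toNNReal (w a / t) • (a - x) = t⁻¹ • (w a • (a - x)) := by
    intro a ha
    have hnn : 0 ≤ w a / t := div_nonneg (hw0 a ha) ht.le
    rw [NNReal.smul_def, Real.coe_toNNReal _ hnn, smul_smul]
    congr 1
    field_simp
  rw [sum_congr rfl h1, ← smul_sum]
  have h2 : ∑ a ∈ S, w a • (a - x) = t • (x - s) := by
    simp_rw [smul_sub]
    rw [sum_sub_distrib, ← sum_smul, hw, hw1, one_smul, add_sub_cancel_left, smul_sub]
  rw [h2, smul_smul, inv_mul_cancel₀ ht.ne', one_smul]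

lemma mem_convexHull_of_neg {S : Finset E} {x : E} (hS : S.Nonempty) (h : Neg (shift S x)) :
    x ∈ convexHull ℝ (S : Set E) := by
  classical
  obtain ⟨s, hs⟩ := hS
  have h1 := h (s - x) (by unfold shift; exact mem_image_of_mem _ hs)
  rw [coe_shift, Submodule.mem_span_image_finset_iff_exists_fun'] at h1
  obtain ⟨c, hc⟩ := h1
  -- weights c a + [a = s]
  let e : E → ℝ := fun a => (c a : ℝ) + if a = s then 1 else 0
  have he0 : ∀ a, 0 ≤ e a := by
    intro a
    have : (0 : ℝ) ≤ c a := (c a).2
    simp only [e]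
    split_ifs <;> linarith
  have hpos : 0 < ∑ a ∈ S, e a := by
    have h1 : e s ≤ ∑ a ∈ S, e a := single_le_sum (fun a _ => he0 a) hs
    have h2 : (0 : ℝ) ≤ c s := (c s).2
    have h3 : 1 ≤ e s := by simp only [e, if_true]; linarith
    linarith
  have hsum : ∑ a ∈ S, e a • (a - x) = 0 := by
    have h1 : ∀ a, e a • (a - x) = c a • (a - x) + (if a = s then (a - x) else 0) := by
      intro a
      simp only [e, add_smul]
      congr 1
      split_ifs <;> simp
    simp_rw [h1]
    rw [sum_add_distrib, hc, sum_ite_eq' S s (fun a => a - x), if_pos hs]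
    simp
  have h2 : ∑ a ∈ S, e a • a = (∑ a ∈ S, e a) • x := by
    have h3 : ∑ a ∈ S, e a • (a - x) = ∑ a ∈ S, e a • a - (∑ a ∈ S, e a) • x := by
      simp_rw [smul_sub]
      rw [sum_sub_distrib, ← sum_smul]
    rw [hsum] at h3
    exact (sub_eq_zero.mp h3.symm)
  have := S.centerMass_mem_convexHull (w := e) (z := fun a => a)
    (s := (S : Set E)) (fun a _ => he0 a) hpos (fun a ha => ha)
  rw [centerMass, h2, smul_smul, inv_mul_cancel₀ hpos.ne', one_smul] at this
  exact this

lemma relint_of_neg_shift [FiniteDimensional ℝ E] {S S' : Finset E} {x : E} (hS : S.Nonempty)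
    (hSS' : S ⊆ S') (hspan : affineSpan ℝ (S' : Set E) = affineSpan ℝ (S : Set E))
    (h : Neg (shift S x)) : x ∈ intrinsicInterior ℝ (convexHull ℝ (S' : Set E)) := by
  classical
  have hx := mem_convexHull_of_neg hS h
  have hmono : convexHull ℝ (S : Set E) ⊆ convexHull ℝ (S' : Set E) :=
    convexHull_mono (by exact_mod_cast hSS')
  apply mem_of_forall_exists_pos (convex_convexHull ℝ _) (hmono hx)
  intro v hv
  rw [affineSpan_convexHull, hspan, direction_affineSpan] at hv
  have hv1 := (h.mem (vectorSpan_le_shift S x hv)).1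
  rw [coe_shift, Submodule.mem_span_image_finset_iff_exists_fun'] at hv1
  obtain ⟨c, hc⟩ := hv1
  set M : ℝ := ∑ a ∈ S, (c a : ℝ) with hM
  have hM0 : 0 ≤ M := sum_nonneg (fun a _ => (c a).2)
  have h1M : 0 < 1 + M := by linarith
  refine ⟨1 / (1 + M), by positivity, hmono ?_⟩
  obtain ⟨w, hw0, hw1, hw⟩ := Finset.mem_convexHull'.mp hx
  rw [Finset.mem_convexHull']
  refine ⟨fun a => w a * (1 / (1 + M)) + (1 / (1 + M)) * (c a : ℝ), ?_, ?_, ?_⟩
  · intro a ha
    have := hw0 a ha
    have := (c a).2
    positivity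
  · rw [sum_add_distrib, ← sum_mul, hw1, ← mul_sum, ← hM]
    field_simp
  · have h1 : ∑ a ∈ S, (c a : ℝ) • a = v + M • x := by
      have h3 : ∑ a ∈ S, (c a : ℝ) • (a - x) = ∑ a ∈ S, (c a : ℝ) • a - M • x := by
        simp_rw [smul_sub]
        rw [sum_sub_distrib, ← sum_smul]
      have h4 : ∑ a ∈ S, (c a : ℝ) • (a - x) = v := hc
      rw [h4] at h3
      rw [h3]; abel
    simp_rw [add_smul, mul_comm (w _), mul_smul]
    rw [sum_add_distrib, ← smul_sum, ← smul_sum, hw, h1, smul_add, smul_smul]
    have e : (1 / (1 + M)) • x + ((1 / (1 + M)) • v + (1 / (1 + M) * M) • x) =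
        (1 / (1 + M) + 1 / (1 + M) * M) • x + (1 / (1 + M)) • v := by
      rw [add_smul]; abel
    rw [e]
    have e2 : 1 / (1 + M) + 1 / (1 + M) * M = 1 := by field_simp
    rw [e2, one_smul]

end Convex

/-! ## The theorem -/

section Main

variable {E : Type*} [NormedAddCommGroup E] [NormedSpace ℝ E]

/-- The definition of the problem: `A` is `k`-almost-neighborly if `conv B ⊆ relbd conv A` for
every `k`-element subset `B` of `A` (`intrinsicFrontier` is the relative boundary). -/
def AlmostNeighborly (k : ℕ) (A : Finset E) : Prop :=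
  ∀ B ⊆ A, B.card = k →
    convexHull ℝ (B : Set E) ⊆ intrinsicFrontier ℝ (convexHull ℝ (A : Set E))

/-- The same notion with the boundary taken in the whole space. -/
def AlmostNeighborly' (k : ℕ) (A : Finset E) : Prop :=
  ∀ B ⊆ A, B.card = k →
    convexHull ℝ (B : Set E) ⊆ frontier (convexHull ℝ (A : Set E))

variable [FiniteDimensional ℝ E]

lemma closure_hull (A : Finset E) :
    closure (convexHull ℝ (A : Set E)) = convexHull ℝ (A : Set E) :=
  (A.finite_toSet.isClosed_convexHull (𝕜 := ℝ)).closure_eq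

lemma mem_frontier_iff {A : Finset E} {x : E} (hx : x ∈ convexHull ℝ (A : Set E)) :
    x ∈ intrinsicFrontier ℝ (convexHull ℝ (A : Set E)) ↔
      x ∉ intrinsicInterior ℝ (convexHull ℝ (A : Set E)) := by
  rw [← closure_sdiff_intrinsicInterior, closure_hull]
  exact ⟨fun h => h.2, fun h => ⟨hx, h⟩⟩

lemma affineSpan_eq_of_span_shift {A1 A : Finset E} {x : E} (hA : A1 ⊆ A)
    (hx : x ∈ convexHull ℝ (A1 : Set E))
    (hs : Submodule.span ℝ (shift A1 x : Set E) = Submodule.span ℝ (shift A x : Set E)) :
    affineSpan ℝ (A1 : Set E) = affineSpan ℝ (A : Set E) := by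
  apply le_antisymm (affineSpan_mono ℝ (by exact_mod_cast hA))
  have hx1 : x ∈ affineSpan ℝ (A1 : Set E) := convexHull_subset_affineSpan _ hx
  have hle : Submodule.span ℝ (shift A1 x : Set E) ≤ (affineSpan ℝ (A1 : Set E)).direction := by
    rw [Submodule.span_le, coe_shift]
    rintro _ ⟨a, ha, rfl⟩
    exact AffineSubspace.vsub_mem_direction (subset_affineSpan ℝ _ ha) hx1
  rw [affineSpan_le]
  intro a ha
  have h1 : a - x ∈ Submodule.span ℝ (shift A x : Set E) := by
    apply Submodule.subset_span
    rw [coe_shift]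
    exact ⟨a, ha, rfl⟩
  rw [← hs] at h1
  have h2 := AffineSubspace.vadd_mem_of_mem_direction (hle h1) hx1
  simpa using h2

/-- The Helly property, relative version. -/
theorem helly_rel (k : ℕ) (hk : k ≤ 2 * finrank ℝ E + 1) (A : Finset E) :
    AlmostNeighborly k A ↔ ∀ A' ⊆ A, A'.card ≤ 2 * finrank ℝ E + 1 →
      affineSpan ℝ (A' : Set E) = affineSpan ℝ (A : Set E) → AlmostNeighborly k A' := by
  classical
  constructor
  · intro h A' hA' _ hspan B hB hBk x hx
    have hxA' : x ∈ convexHull ℝ (A' : Set E) := convexHull_mono (by exact_mod_cast hB) hx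
    have hxA : x ∈ convexHull ℝ (A : Set E) := convexHull_mono (by exact_mod_cast hA') hxA'
    rw [mem_frontier_iff hxA']
    intro hint
    have h1 := h B (hB.trans hA') hBk hx
    rw [mem_frontier_iff hxA] at h1
    apply h1
    have hne : A'.Nonempty := by
      rw [← coe_nonempty, ← convexHull_nonempty_iff (𝕜 := ℝ)]
      exact ⟨x, hxA'⟩
    exact relint_of_neg_shift hne hA' hspan.symm (neg_shift_of_relint hint)
  · intro h B hBA hBk x hx
    have hxA : x ∈ convexHull ℝ (A : Set E) := convexHull_mono (by exact_mod_cast hBA) hx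
    rw [mem_frontier_iff hxA]
    intro hint
    have hNA := neg_shift_of_relint hint
    obtain ⟨ι, _, z, w, hz, hind, hw, hw1, hwz⟩ := eq_pos_convex_span_of_mem_convexHull hx
    have hne : Nonempty ι := by
      by_contra hcon
      rw [not_nonempty_iff] at hcon
      simp at hw1
    have hcard1 : 1 ≤ Fintype.card ι := Fintype.card_pos
    have hzB : ∀ i, z i ∈ B := fun i => by exact_mod_cast hz (Set.mem_range_self i)
    set f : ι → E := fun i => z i - x with hf
    have hrel : ∑ i, w i • f i = 0 := by
      simp only [hf, smul_sub]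
      rw [sum_sub_distrib, ← sum_smul, hwz, hw1, one_smul, sub_self]
    have hN0 : Neg (univ.image f) := by
      have := neg_of_relation (∅ : Finset E) (fun v hv => absurd hv (notMem_empty v)) f w hw
        (by rw [hrel]; exact Submodule.zero_mem _)
      rwa [empty_union] at this
    have hsub0 : univ.image f ⊆ shift A x := by
      intro v hv
      obtain ⟨i, -, rfl⟩ := mem_image.mp hv
      unfold shift
      convert mem_image_of_mem (fun a => a - x) (hBA (hzB i))
    obtain ⟨T, hT1, hT2, hT3, hT4, hT5⟩ :=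
      extend (shift A x) hNA (finrank ℝ (Submodule.span ℝ (shift A x : Set E)))
        (univ.image f) hsub0 hN0 (by omega)
    have hfin0 : Fintype.card ι - 1 ≤
        finrank ℝ (Submodule.span ℝ ((univ.image f : Finset E) : Set E)) := by
      have hvs : finrank ℝ (vectorSpan ℝ (Set.range z)) = Fintype.card ι - 1 :=
        hind.finrank_vectorSpan (by omega)
      rw [← hvs]
      apply Submodule.finrank_mono
      rw [vectorSpan_def, Submodule.span_le]
      rintro _ ⟨_, ⟨i, rfl⟩, _, ⟨j, rfl⟩, rfl⟩
      have e : z i - z j = f i - f j := by simp only [hf]; abel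
      show z i - z j ∈ Submodule.span ℝ ((univ.image f : Finset E) : Set E)
      rw [e]
      exact sub_mem (Submodule.subset_span (by simp)) (Submodule.subset_span (by simp))
    have hfinA : finrank ℝ (Submodule.span ℝ (shift A x : Set E)) ≤ finrank ℝ E :=
      Submodule.finrank_le _
    have hcard0 : (univ.image f).card ≤ Fintype.card ι := card_image_le
    have hTcard : T.card ≤ 2 * finrank ℝ E + 1 := by omega
    -- go back to points
    set A1 : Finset E := T.image (fun v => v + x) with hA1
    have hA1A : A1 ⊆ A := by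
      intro a ha
      obtain ⟨v, hv, rfl⟩ := mem_image.mp ha
      have := hT2 hv
      unfold shift at this
      obtain ⟨b, hb, hbv⟩ := mem_image.mp this
      have e : v + x = b := by rw [← hbv]; abel
      rw [e]; exact hb
    have hshift : shift A1 x = T := by
      unfold shift
      rw [hA1, image_image]
      have e : ((fun a => a - x) ∘ fun v => v + x) = (id : E → E) := by
        funext v; simp
      rw [e, image_id]
    have hA1card : A1.card ≤ 2 * finrank ℝ E + 1 := by
      rw [← card_shift A1 x, hshift]; exact hTcard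
    have hzA1 : univ.image z ⊆ A1 := by
      intro a ha
      obtain ⟨i, -, rfl⟩ := mem_image.mp ha
      rw [hA1, mem_image]
      exact ⟨f i, hT1 (mem_image_of_mem f (mem_univ i)), by simp [hf]⟩
    have hA1ne : A1.Nonempty := by
      obtain ⟨i⟩ := hne
      exact ⟨z i, hzA1 (mem_image_of_mem z (mem_univ i))⟩
    have hNA1 : Neg (shift A1 x) := by rw [hshift]; exact hT3
    have hxz : x ∈ convexHull ℝ ((univ.image z : Finset E) : Set E) := by
      rw [← hwz]
      apply (convex_convexHull ℝ _).sum_mem (fun i _ => (hw i).le) hw1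
      intro i _
      apply subset_convexHull
      simp
    have hxA1 : x ∈ convexHull ℝ (A1 : Set E) :=
      convexHull_mono (by exact_mod_cast hzA1) hxz
    have hspan1 : affineSpan ℝ (A1 : Set E) = affineSpan ℝ (A : Set E) :=
      affineSpan_eq_of_span_shift hA1A hxA1 (by rw [hshift]; exact hT4)
    have hkA : k ≤ A.card := by rw [← hBk]; exact card_le_card hBA
    obtain ⟨A2, hA12, hA2A, hA2card⟩ := exists_subsuperset_card_eq hA1A
      (le_max_left A1.card k) (max_le (card_le_card hA1A) hkA)
    have hspan2 : affineSpan ℝ (A2 : Set E) = affineSpan ℝ (A : Set E) := by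
      apply le_antisymm (affineSpan_mono ℝ (by exact_mod_cast hA2A))
      rw [← hspan1]
      exact affineSpan_mono ℝ (by exact_mod_cast hA12)
    have hint2 : x ∈ intrinsicInterior ℝ (convexHull ℝ (A2 : Set E)) :=
      relint_of_neg_shift hA1ne hA12 (hspan2.trans hspan1.symm) hNA1
    have hzk : (univ.image z).card ≤ k := by
      rw [← hBk]
      apply card_le_card
      intro a ha
      obtain ⟨i, -, rfl⟩ := mem_image.mp ha
      exact hzB i
    obtain ⟨B2, hzB2, hB2A2, hB2card⟩ := exists_subsuperset_card_eq (hzA1.trans hA12) hzk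
      (by rw [hA2card]; exact le_max_right _ _)
    have hAN := h A2 hA2A (by rw [hA2card]; exact max_le hA1card hk) hspan2 B2 hB2A2 hB2card
    have hxB2 : x ∈ convexHull ℝ (B2 : Set E) := convexHull_mono (by exact_mod_cast hzB2) hxz
    have h1 := hAN hxB2
    rw [mem_frontier_iff (intrinsicInterior_subset hint2)] at h1
    exact h1 hint2

lemma intrinsicInterior_subset_interior {A : Finset E}
    (h : affineSpan ℝ (A : Set E) = ⊤) :
    intrinsicInterior ℝ (convexHull ℝ (A : Set E)) ⊆ interior (convexHull ℝ (A : Set E)) := by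
  intro x hx
  obtain ⟨z, hz⟩ := interior_convexHull_nonempty_iff_affineSpan_eq_top.mpr h
  obtain ⟨t, ht, hw⟩ := exists_pos_of_mem hx (v := x - z) (by
    rw [affineSpan_convexHull, h]; simp)
  have hC := convex_convexHull ℝ (A : Set E)
  have h1 := hC.openSegment_interior_self_subset_interior hz hw
  apply h1
  refine ⟨t / (1 + t), 1 / (1 + t), by positivity, by positivity, by field_simp; ring, ?_⟩
  have h1t : 0 < 1 + t := by linarith
  have e : (t / (1 + t)) • z + (1 / (1 + t)) • (x + t • (x - z)) =
      (1 / (1 + t) * (1 + t)) • x + (t / (1 + t) - 1 / (1 + t) * t) • z := by module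
  rw [e]
  have e1 : 1 / (1 + t) * (1 + t) = 1 := by field_simp
  have e2 : t / (1 + t) - 1 / (1 + t) * t = 0 := by field_simp; ring
  rw [e1, e2]
  simp

lemma almostNeighborly'_iff (k : ℕ) (A : Finset E) :
    AlmostNeighborly' k A ↔ (affineSpan ℝ (A : Set E) = ⊤ → AlmostNeighborly k A) := by
  constructor
  · intro h hspan B hB hBk x hx
    have hxA : x ∈ convexHull ℝ (A : Set E) := convexHull_mono (by exact_mod_cast hB) hx
    rw [mem_frontier_iff hxA]
    intro hint
    have h1 := h B hB hBk hx
    rw [frontier] at h1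
    exact h1.2 (intrinsicInterior_subset_interior hspan hint)
  · intro h B hB hBk x hx
    have hxA : x ∈ convexHull ℝ (A : Set E) := convexHull_mono (by exact_mod_cast hB) hx
    by_cases hspan : affineSpan ℝ (A : Set E) = ⊤
    · exact intrinsicFrontier_subset_frontier (h hspan B hB hBk hx)
    · rw [frontier]
      refine ⟨subset_closure hxA, ?_⟩
      intro hint
      exact hspan (interior_convexHull_nonempty_iff_affineSpan_eq_top.mp ⟨x, hint⟩)

/-- The Helly property, with boundaries taken in the whole space. -/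
theorem helly_abs (k : ℕ) (hk : k ≤ 2 * finrank ℝ E + 1) (A : Finset E) :
    AlmostNeighborly' k A ↔ ∀ A' ⊆ A, A'.card ≤ 2 * finrank ℝ E + 1 →
      AlmostNeighborly' k A' := by
  constructor
  · intro h A' hA' hcard
    rw [almostNeighborly'_iff]
    intro hspan'
    have hspan : affineSpan ℝ (A : Set E) = ⊤ := by
      rw [eq_top_iff, ← hspan']
      exact affineSpan_mono ℝ (by exact_mod_cast hA')
    have h1 := (almostNeighborly'_iff k A).mp h hspan
    exact (helly_rel k hk A).mp h1 A' hA' hcard (hspan'.trans hspan.symm)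
  · intro h
    rw [almostNeighborly'_iff]
    intro hspan
    rw [helly_rel k hk A]
    intro A' hA' hcard hspan'
    exact (almostNeighborly'_iff k A').mp (h A' hA' hcard) (hspan'.trans hspan)

/-- No set with exactly `k ≥ 1` points is `k`-almost-neighborly in the literal sense. -/
lemma not_almostNeighborly_of_card {k : ℕ} (hk : 1 ≤ k) {A : Finset E} (hA : A.card = k) :
    ¬ AlmostNeighborly k A := by
  intro h
  have hne : (A : Set E).Nonempty := by
    rw [coe_nonempty, ← card_pos]; omega
  obtain ⟨x, hx⟩ := Set.Nonempty.intrinsicInterior (convex_convexHull ℝ (A : Set E))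
    ((convexHull_nonempty_iff (𝕜 := ℝ)).mpr hne)
  have hxA := intrinsicInterior_subset hx
  have := h A Subset.rfl hA hxA
  rw [mem_frontier_iff hxA] at this
  exact this hx

lemma notMem_relint_of_functional {A B : Finset E} (l : E →ₗ[ℝ] ℝ) (c : ℝ)
    (hB : ∀ b ∈ B, l b = c) (hA : ∀ a ∈ A, c ≤ l a) (hex : ∃ a ∈ A, c < l a) {y : E}
    (hy : y ∈ convexHull ℝ (B : Set E)) :
    y ∉ intrinsicInterior ℝ (convexHull ℝ (A : Set E)) := by
  intro hint
  obtain ⟨a, ha, hac⟩ := hex
  have hyA := intrinsicInterior_subset hint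
  have hdir : y - a ∈ (affineSpan ℝ (convexHull ℝ (A : Set E))).direction :=
    AffineSubspace.vsub_mem_direction (subset_affineSpan ℝ _ hyA)
      (subset_affineSpan ℝ _ (subset_convexHull ℝ _ ha))
  obtain ⟨t, ht, hmem⟩ := exists_pos_of_mem hint hdir
  have h1 : ∀ z ∈ convexHull ℝ (A : Set E), c ≤ l z := by
    intro z hz
    have hsub : convexHull ℝ (A : Set E) ⊆ {z | c ≤ l z} :=
      convexHull_min (fun a ha => hA a ha) (convex_halfSpace_ge l.isLinear c)
    exact hsub hz
  have h2 : l y = c := by
    have hsub : convexHull ℝ (B : Set E) ⊆ {z | l z = c} :=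
      convexHull_min (fun b hb => hB b hb) (convex_hyperplane l.isLinear c)
    exact hsub hy
  have h3 := h1 _ hmem
  rw [map_add, map_smul, map_sub, h2, smul_eq_mul] at h3
  nlinarith

end Main

/-! ## The literal reading fails for a triangle -/

section Triangle

/-- The vertices of a triangle. -/
noncomputable def P : Fin 3 → EuclideanSpace ℝ (Fin 2) := ![!₂[0, 0], !₂[1, 0], !₂[0, 1]]

/-- The coordinate functions. -/
noncomputable def co (i : Fin 2) : EuclideanSpace ℝ (Fin 2) →ₗ[ℝ] ℝ :=
  (EuclideanSpace.proj i : EuclideanSpace ℝ (Fin 2) →L[ℝ] ℝ).toLinearMap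

lemma P_inj : Function.Injective P := by
  intro i j h
  have h0 := congrArg (co 0) h
  have h1 := congrArg (co 1) h
  fin_cases i <;> fin_cases j <;> simp_all [P, co]

open Classical in
/-- The triangle. -/
noncomputable def tri : Finset (EuclideanSpace ℝ (Fin 2)) := univ.image P

lemma tri_card : tri.card = 3 := by
  unfold tri
  rw [card_image_of_injective _ P_inj]
  simp

lemma tri_almostNeighborly : AlmostNeighborly 2 tri := by
  classical
  intro B hB hBc y hy
  have hyA : y ∈ convexHull ℝ (tri : Set (EuclideanSpace ℝ (Fin 2))) :=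
    convexHull_mono (by exact_mod_cast hB) hy
  rw [mem_frontier_iff hyA]
  -- a vertex that is not in `B`
  obtain ⟨i, hi⟩ : ∃ i, P i ∉ B := by
    by_contra hcon
    push Not at hcon
    have : tri ⊆ B := by
      intro a ha
      unfold tri at ha
      obtain ⟨i, -, rfl⟩ := mem_image.mp ha
      exact hcon i
    have := card_le_card this
    rw [tri_card] at this
    omega
  have hB' : ∀ b ∈ B, ∃ j, j ≠ i ∧ P j = b := by
    intro b hb
    have := hB hb
    unfold tri at this
    obtain ⟨j, -, rfl⟩ := mem_image.mp this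
    exact ⟨j, fun h => hi (h ▸ hb), rfl⟩
  have hA' : ∀ a ∈ tri, ∃ j, P j = a := by
    intro a ha
    unfold tri at ha
    obtain ⟨j, -, rfl⟩ := mem_image.mp ha
    exact ⟨j, rfl⟩
  have hmem : ∀ j, P j ∈ tri := fun j => mem_image_of_mem P (mem_univ j)
  fin_cases i
  · apply notMem_relint_of_functional (-(co 0) - co 1) (-1) _ _ _ hy
    · intro b hb
      obtain ⟨j, hj, rfl⟩ := hB' b hb
      fin_cases j <;> simp_all [P, co]
    · intro a ha
      obtain ⟨j, rfl⟩ := hA' a ha
      fin_cases j <;> simp [P, co]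
    · exact ⟨P 0, hmem 0, by simp [P, co]⟩
  · apply notMem_relint_of_functional (co 0) 0 _ _ _ hy
    · intro b hb
      obtain ⟨j, hj, rfl⟩ := hB' b hb
      fin_cases j <;> simp_all [P, co]
    · intro a ha
      obtain ⟨j, rfl⟩ := hA' a ha
      fin_cases j <;> simp [P, co]
    · exact ⟨P 1, hmem 1, by simp [P, co]⟩
  · apply notMem_relint_of_functional (co 1) 0 _ _ _ hy
    · intro b hb
      obtain ⟨j, hj, rfl⟩ := hB' b hb
      fin_cases j <;> simp_all [P, co]
    · intro a ha
      obtain ⟨j, rfl⟩ := hA' a ha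
      fin_cases j <;> simp [P, co]
    · exact ⟨P 2, hmem 2, by simp [P, co]⟩

end Triangle

/-- **The Helly number of `k`-almost-neighborly sets in `ℝ^d` is `2d+1` for `k ≤ 2d+1`.**
First part: boundaries taken in `ℝ^d`. Second part: relative boundaries, subsets with the same
affine hull. Third part: with relative boundaries and all subsets the equivalence is false. -/
theorem result :
    (∀ d k : ℕ, 1 ≤ d → k ≤ 2 * d + 1 → ∀ A : Finset (EuclideanSpace ℝ (Fin d)),
      (AlmostNeighborly' k A ↔
        ∀ A' ⊆ A, A'.card ≤ 2 * d + 1 → AlmostNeighborly' k A')) ∧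
    (∀ d k : ℕ, 1 ≤ d → k ≤ 2 * d + 1 → ∀ A : Finset (EuclideanSpace ℝ (Fin d)),
      (AlmostNeighborly k A ↔
        ∀ A' ⊆ A, A'.card ≤ 2 * d + 1 →
          affineSpan ℝ (A' : Set (EuclideanSpace ℝ (Fin d))) =
            affineSpan ℝ (A : Set (EuclideanSpace ℝ (Fin d))) →
          AlmostNeighborly k A')) ∧
    ¬ (∀ d k : ℕ, 1 ≤ d → 2 ≤ k → k ≤ 2 * d + 1 → ∀ A : Finset (EuclideanSpace ℝ (Fin d)),
      (AlmostNeighborly k A ↔
        ∀ A' ⊆ A, A'.card ≤ 2 * d + 1 → AlmostNeighborly k A')) := by
  refine ⟨?_, ?_, ?_⟩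
  · intro d k _ hk A
    have h := helly_abs (E := EuclideanSpace ℝ (Fin d)) k (by simpa using hk) A
    simpa using h
  · intro d k _ hk A
    have h := helly_rel (E := EuclideanSpace ℝ (Fin d)) k (by simpa using hk) A
    simpa using h
  · intro h
    have h1 := (h 2 2 (by norm_num) le_rfl (by norm_num) tri).mp tri_almostNeighborly
    obtain ⟨B, hB, hBc⟩ := exists_subset_card_eq (s := tri) (n := 2) (by rw [tri_card]; norm_num)
    exact not_almostNeighborly_of_card (by norm_num) hBc (h1 B hB (by omega))

end Pool.Agent.Results.MP_aae461_co.HellyNumber
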